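import Mathlib

/-!
Continuous choice of dense, linearly independent sequences in separable Banach spaces.
-/

set_option autoImplicit false

open Set Filter Topology TopologicalSpace

namespace Pool.Agent.Results.MP_89350a_an.ContinuousChoice

section statement

variable (𝕂 : Type*) [RCLike 𝕂]

/-- The Banach space `C(Δ)` of continuous scalar functions on the Cantor space `Δ = {0,1}^ℕ`,
with the supremum norm. -/
abbrev CDelta : Type _ := C(ℕ → Bool, 𝕂)

/-- The set `SB` of all closed linear subspaces of `C(Δ)`. -/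
def SB : Type _ := {X : Submodule 𝕂 (CDelta 𝕂) // IsClosed (X : Set (CDelta 𝕂))}

variable {𝕂}

/-- `E⁺(U)`: the closed linear subspaces of `C(Δ)` which meet `U`. -/
def Eplus (U : Set (CDelta 𝕂)) : Set (SB 𝕂) := {X | ((X.1 : Set (CDelta 𝕂)) ∩ U).Nonempty}

/-- Admissible topologies on `SB`: Polish topologies `τ` such that `E⁺(U)` is `τ`-open for every
open `U ⊆ C(Δ)`, and `τ` has a subbasis each of whose members is a countable union of sets
`E⁺(U) \ E⁺(V)` with `U, V ⊆ C(Δ)` open. -/
def IsAdmissible (τ : TopologicalSpace (SB 𝕂)) : Prop :=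
  @PolishSpace (SB 𝕂) τ ∧
  (∀ U : Set (CDelta 𝕂), IsOpen U → IsOpen[τ] (Eplus U)) ∧
  ∃ S : Set (Set (SB 𝕂)), τ = TopologicalSpace.generateFrom S ∧
    ∀ s ∈ S, ∃ U V : ℕ → Set (CDelta 𝕂), (∀ n, IsOpen (U n)) ∧ (∀ n, IsOpen (V n)) ∧
      s = ⋃ n, (Eplus (U n) \ Eplus (V n))

end statement

/-! ### Countable intersections of open subsets of Polish spaces -/

lemma polish_iInter {P : Type*} [TopologicalSpace P] [PolishSpace P] (O : ℕ → Set P)
    (hO : ∀ n, IsOpen (O n)) : PolishSpace (⋂ n, O n : Set P) := by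
  have : ∀ n, PolishSpace (O n) := fun n => (hO n).polishSpace
  let f : (⋂ n, O n : Set P) → (∀ n, O n) := fun x n => ⟨x.1, mem_iInter.1 x.2 n⟩
  have hf : Continuous f := by
    apply continuous_pi
    intro n
    exact Continuous.subtype_mk continuous_subtype_val _
  have hind : IsInducing f := by
    have hg : Continuous (fun y : (∀ n, O n) => ((y 0 : O 0) : P)) :=
      continuous_subtype_val.comp (continuous_apply 0)
    exact IsInducing.of_comp hf hg IsInducing.subtypeVal
  have hinj : Function.Injective f := by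
    intro x y hxy
    apply Subtype.ext
    exact congrArg (fun z : (∀ n, O n) => ((z 0 : O 0) : P)) hxy
  have hcl : IsClosed (range f) := by
    have : range f = ⋂ n, {y : (∀ n, O n) | ((y n : O n) : P) = ((y 0 : O 0) : P)} := by
      ext y
      simp only [mem_range, mem_iInter]
      constructor
      · rintro ⟨x, rfl⟩ n
        rfl
      · intro h
        refine ⟨⟨((y 0 : O 0) : P), ?_⟩, ?_⟩
        · rw [mem_iInter]
          intro n
          have : ((y n : O n) : P) = ((y 0 : O 0) : P) := h n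
          rw [← this]
          exact (y n).2
        · funext n
          apply Subtype.ext
          exact (h n).symm
    rw [this]
    apply isClosed_iInter
    intro n
    apply isClosed_eq
    · exact continuous_subtype_val.comp (continuous_apply n)
    · exact continuous_subtype_val.comp (continuous_apply 0)
  exact (IsClosedEmbedding.mk ⟨hind, hinj⟩ hcl).polishSpace

lemma polish_of_isGδ {P : Type*} [TopologicalSpace P] [PolishSpace P] {s : Set P} (hs : IsGδ s) :
    PolishSpace s := by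
  obtain ⟨O, hO, rfl⟩ := isGδ_iff_eq_iInter_nat.1 hs
  exact polish_iInter O hO

/-! ### Choice and perturbation -/

/-- Every open set is a countable union of clopen sets. -/
def PropZ (S : Type*) [TopologicalSpace S] : Prop :=
  ∀ O : Set S, IsOpen O → ∃ C : ℕ → Set S, (∀ n, IsClopen (C n)) ∧ O = ⋃ n, C n

section choice

variable {S : Type*} [TopologicalSpace S]

/-- Locally constant choice from clopen conditions. -/
lemma cont_find {ι : Type*} [Nonempty ι] [Countable ι] [TopologicalSpace ι] [DiscreteTopology ι]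
    (p : S → ι → Prop) (hp : ∀ i, IsClopen {X | p X i}) (h : ∀ X, ∃ i, p X i) :
    ∃ α : S → ι, Continuous α ∧ ∀ X, p X (α X) := by
  classical
  obtain ⟨f, hf⟩ := exists_surjective_nat ι
  have h' : ∀ X, ∃ n, p X (f n) := by
    intro X
    obtain ⟨i, hi⟩ := h X
    obtain ⟨n, rfl⟩ := hf i
    exact ⟨n, hi⟩
  refine ⟨fun X => f (Nat.find (h' X)), ?_, fun X => Nat.find_spec (h' X)⟩
  refine (continuous_of_discreteTopology (f := f)).comp ?_
  rw [continuous_discrete_rng]
  intro n
  have : (fun X => Nat.find (h' X)) ⁻¹' {n} =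
      {X | p X (f n)} ∩ ⋂ m ∈ Iio n, {X | p X (f m)}ᶜ := by
    ext X
    simp only [mem_preimage, mem_singleton_iff, Nat.find_eq_iff, mem_inter_iff, mem_iInter,
      mem_Iio, mem_compl_iff]
    rfl
  rw [this]
  refine (hp _).isOpen.inter ?_
  exact (finite_Iio n).isOpen_biInter fun m _ => (hp _).compl.isOpen

/-- Choice from an open cover of an open set. -/
lemma clopen_choice (hS : PropZ S) {ι : Type*} [Nonempty ι] [Countable ι]
    (O : ι → Set S) (hO : ∀ i, IsOpen (O i)) :
    ∃ α : S → ι, (∀ X ∈ ⋃ i, O i, X ∈ O (α X)) ∧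
      ∀ X ∈ ⋃ i, O i, ∀ᶠ Y in 𝓝 X, α Y = α X := by
  classical
  choose C hC hOC using fun i => hS (O i) (hO i)
  obtain ⟨f, hf⟩ := exists_surjective_nat (ι × ℕ)
  let i0 : ι := Classical.arbitrary ι
  let α : S → ι := fun X => if h : ∃ n, X ∈ C (f n).1 (f n).2 then (f (Nat.find h)).1 else i0
  have hex : ∀ X ∈ ⋃ i, O i, ∃ n, X ∈ C (f n).1 (f n).2 := by
    intro X hX
    obtain ⟨i, hi⟩ := mem_iUnion.1 hX
    rw [hOC i] at hi
    obtain ⟨k, hk⟩ := mem_iUnion.1 hi
    obtain ⟨n, hn⟩ := hf (i, k)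
    exact ⟨n, by rw [hn]; exact hk⟩
  refine ⟨α, ?_, ?_⟩
  · intro X hX
    have h := hex X hX
    have h1 : α X = (f (Nat.find h)).1 := dif_pos h
    rw [h1, hOC]
    exact mem_iUnion.2 ⟨_, Nat.find_spec h⟩
  · intro X hX
    have h := hex X hX
    have hopen : IsOpen (C (f (Nat.find h)).1 (f (Nat.find h)).2 ∩
        ⋂ m ∈ Iio (Nat.find h), (C (f m).1 (f m).2)ᶜ) := by
      refine (hC _ _).isOpen.inter ?_
      exact (finite_Iio _).isOpen_biInter fun m _ => (hC _ _).compl.isOpen
    filter_upwards [hopen.mem_nhds ⟨Nat.find_spec h, by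
      simp only [mem_iInter, mem_Iio, mem_compl_iff]
      exact fun m hm => Nat.find_min h hm⟩] with Y hY
    have hY' : ∃ n, Y ∈ C (f n).1 (f n).2 := ⟨_, hY.1⟩
    have h2 := hY.2
    simp only [mem_iInter, mem_Iio, mem_compl_iff] at h2
    have h3 : Nat.find hY' = Nat.find h := by
      rw [Nat.find_eq_iff]
      exact ⟨hY.1, fun m hm => h2 m hm⟩
    have h4 : α X = (f (Nat.find h)).1 := dif_pos h
    have h5 : α Y = (f (Nat.find hY')).1 := dif_pos hY'
    rw [h4, h5, h3]

/-- An open set is an increasing union of clopen sets. -/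
lemma exists_mono_clopen (hS : PropZ S) {W : Set S} (hW : IsOpen W) :
    ∃ K : ℕ → Set S, (∀ n, IsClopen (K n)) ∧ Monotone K ∧ W = ⋃ n, K n := by
  obtain ⟨C, hC, rfl⟩ := hS W hW
  refine ⟨fun n => ⋃ m ∈ Iic n, C m, ?_, ?_, ?_⟩
  · intro n
    exact (finite_Iic n).isClopen_biUnion fun m _ => hC m
  · intro n m hnm
    exact biUnion_subset_biUnion_left (Iic_subset_Iic.2 hnm)
  · ext X
    simp only [mem_iUnion, mem_Iic, exists_prop]
    exact ⟨fun ⟨n, hn⟩ => ⟨n, n, le_rfl, hn⟩, fun ⟨n, m, _, hm⟩ => ⟨m, hm⟩⟩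

end choice

section perturb

variable {S : Type*} [TopologicalSpace S] {𝕂 : Type*} [RCLike 𝕂] {E : Type*}
  [NormedAddCommGroup E] [NormedSpace 𝕂 E]

/-- The perturbation lemma. -/
lemma perturb (hS : PropZ S) (F : S → Submodule 𝕂 E) (g : ℕ → S → E) (hg : ∀ j, Continuous (g j))
    (hgF : ∀ j X, g j X ∈ F X) {k : ℕ} (h : Fin k → S → E) (hh : ∀ l, Continuous (h l))
    (i : ℕ) {ε : ℝ} (hε : 0 < ε) :
    ∃ u : S → E, Continuous u ∧ (∀ X, u X ∈ F X) ∧ (∀ X, ‖u X - g i X‖ ≤ ε) ∧
      ∀ X, LinearIndependent 𝕂 (fun l => h l X) →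
        (∃ j, g j X ∉ Submodule.span 𝕂 (range fun l => h l X)) →
        u X ∉ Submodule.span 𝕂 (range fun l => h l X) := by
  classical
  let sn : ℕ → ℕ → S → Fin (k + 1) → E := fun j m X =>
    Fin.snoc (fun l => h l X) (g i X + ((1 / ((m : ℝ) + 1) : ℝ) : 𝕂) • g j X)
  have hsn : ∀ j m, Continuous (sn j m) := by
    intro j m
    apply Continuous.finSnoc (A := fun _ : Fin (k + 1) => E)
    · exact continuous_pi fun l => hh l
    · exact (hg i).add ((hg j).const_smul _)
  have hO0 : ∀ j m, IsOpen {X | LinearIndependent 𝕂 (sn j m X)} := by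
    intro j m
    exact isOpen_setOfPred_linearIndependent.preimage (hsn j m)
  let W : Set S := ⋃ j, ⋃ m, {X | LinearIndependent 𝕂 (sn j m X)}
  have hW : IsOpen W := isOpen_iUnion fun j => isOpen_iUnion fun m => hO0 j m
  have hWmem : ∀ X, LinearIndependent 𝕂 (fun l => h l X) →
      ∀ j, g j X ∉ Submodule.span 𝕂 (range fun l => h l X) →
      ∀ δ > 0, ∃ m, LinearIndependent 𝕂 (sn j m X) ∧ 
        ‖(((1 / ((m : ℝ) + 1) : ℝ) : 𝕂)) • g j X‖ < δ := by
    intro X hX j hj δ hδ
    obtain ⟨m0, hm0⟩ : ∃ m0 : ℕ, ∀ m ≥ m0, ‖(((1 / ((m : ℝ) + 1) : ℝ) : 𝕂)) • g j X‖ < δ := by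
      obtain ⟨m0, hm0⟩ := exists_nat_one_div_lt (by positivity : 0 < δ / (‖g j X‖ + 1))
      refine ⟨m0, fun m hm => ?_⟩
      rw [norm_smul, RCLike.norm_ofReal, abs_of_pos (by positivity)]
      rw [lt_div_iff₀ (by positivity)] at hm0
      have h1 : 1 / ((m : ℝ) + 1) ≤ 1 / ((m0 : ℝ) + 1) := by
        apply one_div_le_one_div_of_le (by positivity)
        have : (m0 : ℝ) ≤ m := by exact_mod_cast hm
        linarith
      have h2 : 0 < 1 / ((m : ℝ) + 1) := by positivity
      have h3 := norm_nonneg (g j X)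
      calc 1 / ((m : ℝ) + 1) * ‖g j X‖ ≤ 1 / ((m0 : ℝ) + 1) * ‖g j X‖ :=
            mul_le_mul_of_nonneg_right h1 h3
        _ ≤ 1 / ((m0 : ℝ) + 1) * (‖g j X‖ + 1) := by
            apply mul_le_mul_of_nonneg_left _ (by positivity)
            linarith
        _ < δ := hm0
    by_cases h1 : LinearIndependent 𝕂 (sn j m0 X)
    · exact ⟨m0, h1, hm0 m0 le_rfl⟩
    · refine ⟨m0 + 1, ?_, hm0 _ (by omega)⟩
      by_contra h2
      rw [linearIndependent_finSnoc] at h1 h2
      have h1' : g i X + ((1 / ((m0 : ℝ) + 1) : ℝ) : 𝕂) • g j X ∈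
          Submodule.span 𝕂 (range fun l => h l X) := by
        by_contra h3
        exact h1 ⟨hX, h3⟩
      have h2' : g i X + ((1 / (((m0 + 1 : ℕ) : ℝ) + 1) : ℝ) : 𝕂) • g j X ∈
          Submodule.span 𝕂 (range fun l => h l X) := by
        by_contra h3
        exact h2 ⟨hX, h3⟩
      have h3 := Submodule.sub_mem _ h1' h2'
      rw [add_sub_add_left_eq_sub, ← sub_smul] at h3
      apply hj
      refine (Submodule.smul_mem_iff _ ?_).1 h3
      rw [← RCLike.ofReal_sub]
      rw [RCLike.ofReal_ne_zero]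
      have : (1 / (((m0 + 1 : ℕ) : ℝ) + 1) : ℝ) < 1 / ((m0 : ℝ) + 1) := by
        apply one_div_lt_one_div_of_lt (by positivity)
        push_cast
        linarith
      linarith [this]
  obtain ⟨K, hK, hKm, hWK⟩ := exists_mono_clopen hS hW
  let O : (ℕ × ℕ × ℕ) → Set S := fun t => 
    {X | LinearIndependent 𝕂 (sn t.1 t.2.1 X)} ∩ (K t.2.2 ∩ 
      ⋂ q ∈ Iio t.2.2, (K q)ᶜ) ∩ 
      {X | ‖(((1 / ((t.2.1 : ℝ) + 1) : ℝ) : 𝕂)) • g t.1 X‖ < ε / ((t.2.2 : ℝ) + 1)}
  have hO : ∀ t, IsOpen (O t) := by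
    intro t
    refine ((hO0 _ _).inter ((hK _).isOpen.inter ?_)).inter ?_
    · exact (finite_Iio _).isOpen_biInter fun m _ => (hK _).compl.isOpen
    · exact isOpen_lt ((hg _).const_smul _).norm continuous_const
  obtain ⟨α, hα1, hα2⟩ := clopen_choice hS O hO
  have hWO : ∀ X ∈ W, X ∈ ⋃ t, O t := by
    intro X hX
    have hX' := hX
    rw [hWK] at hX'
    have hex : ∃ q, X ∈ K q := mem_iUnion.1 hX'
    obtain ⟨j0, hj0⟩ := mem_iUnion.1 hX
    obtain ⟨m0, hm0⟩ := mem_iUnion.1 hj0
    have hLI : LinearIndependent 𝕂 (sn j0 m0 X) := hm0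
    rw [linearIndependent_finSnoc] at hLI
    obtain ⟨j, hj⟩ : ∃ j, g j X ∉ Submodule.span 𝕂 (range fun l => h l X) := by
      by_contra hcon
      push Not at hcon
      exact hLI.2 (Submodule.add_mem _ (hcon i) (Submodule.smul_mem _ _ (hcon j0)))
    obtain ⟨m, hm, hm'⟩ := hWmem X hLI.1 j hj (ε / ((Nat.find hex : ℝ) + 1)) (by positivity)
    refine mem_iUnion.2 ⟨(j, m, Nat.find hex), ⟨hm, Nat.find_spec hex, ?_⟩, hm'⟩
    simp only [mem_iInter, mem_Iio, mem_compl_iff]
    exact fun q hq => Nat.find_min hex hq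
  let v : S → E := fun X => if X ∈ ⋃ t, O t then
    (((1 / (((α X).2.1 : ℝ) + 1) : ℝ) : 𝕂)) • g (α X).1 X else 0
  have hv : Continuous v := by
    rw [continuous_iff_continuousAt]
    intro X
    by_cases hX : X ∈ ⋃ t, O t
    · have h1 : v =ᶠ[𝓝 X] fun Y => (((1 / (((α X).2.1 : ℝ) + 1) : ℝ) : 𝕂)) • g (α X).1 Y := by
        filter_upwards [(isOpen_iUnion hO).mem_nhds hX, hα2 X hX] with Y hY hY'
        change (if Y ∈ ⋃ t, O t then 
          (((1 / (((α Y).2.1 : ℝ) + 1) : ℝ) : 𝕂)) • g (α Y).1 Y else 0) = _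
        rw [if_pos hY, hY']
      exact ((hg _).const_smul _).continuousAt.congr h1.symm
    · have hvX : v X = 0 := if_neg hX
      rw [Metric.continuousAt_iff']
      intro δ hδ
      rw [hvX]
      obtain ⟨q, hq⟩ := exists_nat_one_div_lt (by positivity : 0 < δ / ε)
      have hsmall : ∀ Y, Y ∉ K q → dist (v Y) 0 < δ := by
        intro Y hY
        rw [dist_zero_right]
        by_cases hY2 : Y ∈ ⋃ t, O t
        · have h1 : v Y = (((1 / (((α Y).2.1 : ℝ) + 1) : ℝ) : 𝕂)) • g (α Y).1 Y := if_pos hY2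
          rw [h1]
          have h2 := hα1 Y hY2
          have h3 : ‖(((1 / (((α Y).2.1 : ℝ) + 1) : ℝ) : 𝕂)) • g (α Y).1 Y‖ <
            ε / (((α Y).2.2 : ℝ) + 1) := h2.2
          have h4 : q < (α Y).2.2 := by
            by_contra h5
            push Not at h5
            exact hY (hKm h5 h2.1.2.1)
          have h6 : 1 / (((α Y).2.2 : ℝ) + 1) ≤ 1 / ((q : ℝ) + 1) := by
            apply one_div_le_one_div_of_le (by positivity)
            have : (q : ℝ) < (α Y).2.2 := by exact_mod_cast h4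
            linarith
          rw [lt_div_iff₀ hε] at hq
          calc _ < ε / (((α Y).2.2 : ℝ) + 1) := h3
            _ = 1 / (((α Y).2.2 : ℝ) + 1) * ε := by ring
            _ ≤ 1 / ((q : ℝ) + 1) * ε := mul_le_mul_of_nonneg_right h6 hε.le
            _ < δ := hq
        · have h1 : v Y = 0 := if_neg hY2
          rw [h1, norm_zero]
          exact hδ
      have hXK : X ∉ K q := by
        intro hXK
        apply hX
        apply hWO
        rw [hWK]
        exact mem_iUnion.2 ⟨q, hXK⟩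
      filter_upwards [(hK q).compl.isOpen.mem_nhds hXK] with Y hY
      exact hsmall Y hY
  refine ⟨fun X => g i X + v X, (hg i).add hv, ?_, ?_, ?_⟩
  · intro X
    refine Submodule.add_mem _ (hgF i X) ?_
    change (if X ∈ ⋃ t, O t then
          (((1 / (((α X).2.1 : ℝ) + 1) : ℝ) : 𝕂)) • g (α X).1 X else 0) ∈ F X
    split_ifs
    · exact Submodule.smul_mem _ _ (hgF _ _)
    · exact Submodule.zero_mem _
  · intro X
    rw [add_sub_cancel_left]
    change ‖(if X ∈ ⋃ t, O t then
          (((1 / (((α X).2.1 : ℝ) + 1) : ℝ) : 𝕂)) • g (α X).1 X else 0)‖ ≤ ε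
    split_ifs with hX
    · have h2 := hα1 X hX
      have h3 : ‖(((1 / (((α X).2.1 : ℝ) + 1) : ℝ) : 𝕂)) • g (α X).1 X‖ <
            ε / (((α X).2.2 : ℝ) + 1) := h2.2
      refine h3.le.trans ?_
      apply div_le_self hε.le
      have : (0 : ℝ) ≤ (α X).2.2 := Nat.cast_nonneg _
      linarith
    · rw [norm_zero]; exact hε.le
  · intro X hLI hj
    obtain ⟨j, hj⟩ := hj
    obtain ⟨m, hm, _⟩ := hWmem X hLI j hj 1 one_pos
    have hX : X ∈ ⋃ t, O t := hWO X (mem_iUnion.2 ⟨j, mem_iUnion.2 ⟨m, hm⟩⟩)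
    have h1 : v X = (((1 / (((α X).2.1 : ℝ) + 1) : ℝ) : 𝕂)) • g (α X).1 X := if_pos hX
    have h2 : LinearIndependent 𝕂 (sn (α X).1 (α X).2.1 X) := (hα1 X hX).1.1
    rw [linearIndependent_finSnoc] at h2
    change g i X + v X ∉ _
    rw [h1]
    exact h2.2

/-- Strong recursion. -/
noncomputable def hrec {A : Type*} (F : (n : ℕ) → (Fin n → A) → A) : ℕ → A
  | n => F n (fun m => hrec F m.1)
termination_by n => n
decreasing_by exact m.2

lemma hrec_eq {A : Type*} (F : (n : ℕ) → (Fin n → A) → A) (n : ℕ) :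
    hrec F n = F n (fun m => hrec F m.1) := by
  rw [hrec]

/-- From dense continuous selections to dense linearly independent continuous selections. -/
lemma dense_indep (hS : PropZ S) (F : S → Submodule 𝕂 E) (hF : ∀ X, IsClosed (F X : Set E))
    (g : ℕ → S → E) (hg : ∀ j, Continuous (g j))
    (hgF : ∀ X, closure (range fun j => g j X) = F X) :
    ∃ h : ℕ → S → E, (∀ j, Continuous (h j)) ∧ (∀ X, closure (range fun j => h j X) = F X) ∧
      ∀ X, ¬FiniteDimensional 𝕂 (F X) → LinearIndependent 𝕂 (fun j => h j X) := by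
  classical
  have hgF' : ∀ j X, g j X ∈ F X := by
    intro j X
    have : g j X ∈ closure (range fun j => g j X) := subset_closure ⟨j, rfl⟩
    rw [hgF X] at this
    exact this
  have hstep : ∀ (n : ℕ) (h : Fin n → {f : S → E // Continuous f}),
      ∃ u : {f : S → E // Continuous f}, (∀ X, u.1 X ∈ F X) ∧
        (∀ X, ‖u.1 X - g (Nat.unpair n).1 X‖ ≤ 1 / ((n : ℝ) + 1)) ∧
      ∀ X, LinearIndependent 𝕂 (fun l => (h l).1 X) →
        (∃ j, g j X ∉ Submodule.span 𝕂 (range fun l => (h l).1 X)) →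
        u.1 X ∉ Submodule.span 𝕂 (range fun l => (h l).1 X) := by
    intro n h
    obtain ⟨u, hu1, hu2, hu3, hu4⟩ := perturb hS F g hg hgF' (fun l => (h l).1)
      (fun l => (h l).2) (Nat.unpair n).1 (by positivity : 0 < 1 / ((n : ℝ) + 1))
    exact ⟨⟨u, hu1⟩, hu2, hu3, hu4⟩
  choose G hG1 hG2 hG3 using hstep
  let h : ℕ → {f : S → E // Continuous f} := hrec G
  have hh : ∀ n, h n = G n (fun l => h l.1) := hrec_eq G
  have hhF : ∀ n X, (h n).1 X ∈ F X := by
    intro n X
    rw [hh n]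
    exact hG1 _ _ X
  refine ⟨fun n => (h n).1, fun n => (h n).2, ?_, ?_⟩
  · intro X
    apply Subset.antisymm
    · apply closure_minimal _ (hF X)
      rintro _ ⟨n, rfl⟩
      exact hhF n X
    · rw [← hgF X]
      apply closure_minimal _ isClosed_closure
      rintro _ ⟨i, rfl⟩
      rw [Metric.mem_closure_iff]
      intro ε hε
      obtain ⟨m, hm⟩ := exists_nat_one_div_lt hε
      refine ⟨_, ⟨Nat.pair i m, rfl⟩, ?_⟩
      rw [dist_comm, dist_eq_norm]
      have h1 := hG2 (Nat.pair i m) (fun l => h l.1) X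
      rw [← hh, Nat.unpair_pair] at h1
      refine lt_of_le_of_lt (h1.trans ?_) hm
      apply one_div_le_one_div_of_le (by positivity)
      have : (m : ℝ) ≤ (Nat.pair i m : ℕ) := by exact_mod_cast Nat.right_le_pair i m
      linarith
  · intro X hX
    have hfin : ∀ n : ℕ, LinearIndependent 𝕂 (fun l : Fin n => (h l.1).1 X) := by
      intro n
      induction n with
      | zero => exact linearIndependent_empty_type
      | succ n ih =>
        have h1 : (fun l : Fin (n + 1) => (h l.1).1 X) =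
            Fin.snoc (fun l : Fin n => (h l.1).1 X) ((h n).1 X) := by
          funext l
          refine Fin.lastCases ?_ (fun l => ?_) l
          · rw [Fin.snoc_last]; rfl
          · rw [Fin.snoc_castSucc]; rfl
        rw [h1, linearIndependent_finSnoc]
        refine ⟨ih, ?_⟩
        rw [hh n]
        apply hG3 n (fun l => h l.1) X ih
        by_contra hcon
        push Not at hcon
        apply hX
        have hfd : FiniteDimensional 𝕂 (Submodule.span 𝕂 (range fun l : Fin n => (h l.1).1 X)) :=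
          FiniteDimensional.span_of_finite 𝕂 (finite_range _)
        have hcl : IsClosed ((Submodule.span 𝕂 (range fun l : Fin n => (h l.1).1 X) :
            Submodule 𝕂 E) : Set E) := Submodule.closed_of_finiteDimensional _
        have hle : F X ≤ Submodule.span 𝕂 (range fun l : Fin n => (h l.1).1 X) := by
          intro x hx
          have hx' : x ∈ closure (range fun j => g j X) := by rw [hgF X]; exact hx
          refine closure_minimal ?_ hcl hx'
          rintro _ ⟨j, rfl⟩
          exact hcon j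
        exact Submodule.finiteDimensional_of_le hle
    rw [linearIndependent_iff_finset_linearIndependent]
    intro s
    obtain ⟨n, hn⟩ : ∃ n, ∀ m ∈ s, m < n := by
      obtain ⟨b, hb⟩ := s.exists_le
      exact ⟨b + 1, fun m hm => Nat.lt_succ_of_le (hb m hm)⟩
    have := (hfin n).comp (fun m : s => (⟨m.1, hn m.1 m.2⟩ : Fin n)) (by
      intro a b hab
      apply Subtype.ext
      exact congrArg Fin.val hab)
    exact this

end perturb

/-! ### The coding of closed linear subspaces -/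

section coding



variable {𝕂 : Type*} [RCLike 𝕂] {E : Type*} [NormedAddCommGroup E] [NormedSpace 𝕂 E]
  [CompleteSpace E] [SeparableSpace E]

/-- The radii. -/
noncomputable def rad (j : ℕ) : ℝ := 1 / ((j : ℝ) + 1)

lemma rad_pos (j : ℕ) : 0 < rad j := by unfold rad; positivity

lemma exists_rad_lt {ε : ℝ} (hε : 0 < ε) : ∃ j, rad j < ε := exists_nat_one_div_lt hε

variable (E) in
/-- A dense sequence of `E`. -/
noncomputable def den (i : ℕ) : E := denseSeq E i

variable (E) in
/-- The basic balls. -/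
noncomputable def bl (a : ℕ × ℕ) : Set E := Metric.ball (den E a.1) (rad a.2)

lemma bl_open (a : ℕ × ℕ) : IsOpen (bl E a) := Metric.isOpen_ball

lemma exists_den_near (x : E) {ε : ℝ} (hε : 0 < ε) : ∃ i, dist (den E i) x < ε := by
  obtain ⟨i, hi⟩ := (denseRange_denseSeq E).exists_dist_lt x hε
  exact ⟨i, by rw [dist_comm]; exact hi⟩

/-- For an open set `U ∋ x` and `m` there is a basic ball of radius at most `rad m` around `x` with
closure inside `U`. -/
lemma exists_bl {x : E} {U : Set E} (hU : IsOpen U) (hx : x ∈ U) {ε : ℝ} (hε : 0 < ε) :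
    ∃ a : ℕ × ℕ, x ∈ bl E a ∧ Metric.closedBall (den E a.1) (rad a.2) ⊆ U ∧ rad a.2 < ε := by
  obtain ⟨δ, hδ, hδU⟩ := Metric.isOpen_iff.1 hU x hx
  obtain ⟨j, hj⟩ := exists_rad_lt (lt_min (half_pos hδ) hε)
  obtain ⟨i, hi⟩ := exists_den_near x (rad_pos j)
  refine ⟨(i, j), ?_, ?_, hj.trans_le (min_le_right _ _)⟩
  · rw [bl, Metric.mem_ball, dist_comm]; exact hi
  · intro y hy
    apply hδU
    rw [Metric.mem_closedBall] at hy
    rw [Metric.mem_ball]
    have h1 := hj.trans_le (min_le_left _ _)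
    calc dist y x ≤ dist y (den E i) + dist (den E i) x := dist_triangle _ _ _
      _ < rad j + rad j := add_lt_add_of_le_of_lt hy hi
      _ < δ := by linarith

variable (𝕂 E) in
/-- Closed linear subspaces. -/
def CS : Type _ := {X : Submodule 𝕂 E // IsClosed (X : Set E)}

/-- The code of a closed subspace. -/
noncomputable def code (X : CS 𝕂 E) : ℕ × ℕ → Bool := fun a =>
  @decide ((X.1 : Set E) ∩ bl E a).Nonempty (Classical.dec _)

lemma code_iff (X : CS 𝕂 E) (a : ℕ × ℕ) : code X a = true ↔ ((X.1 : Set E) ∩ bl E a).Nonempty := by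
  unfold code
  simp

lemma code_injective : Function.Injective (code (𝕂 := 𝕂) (E := E)) := by
  have key : ∀ X Y : CS 𝕂 E, code X = code Y → (X.1 : Set E) ⊆ Y.1 := by
    intro X Y h x hx
    have : x ∈ closure (Y.1 : Set E) := by
      rw [Metric.mem_closure_iff]
      intro ε hε
      obtain ⟨a, ha1, ha2, ha3⟩ := exists_bl isOpen_univ (mem_univ x) (half_pos hε)
      have h1 : code X a = true := (code_iff X a).2 ⟨x, hx, ha1⟩
      rw [h] at h1
      obtain ⟨y, hy, hya⟩ := (code_iff Y a).1 h1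
      refine ⟨y, hy, ?_⟩
      rw [bl, Metric.mem_ball] at ha1 hya
      calc dist x y ≤ dist x (den E a.1) + dist y (den E a.1) := dist_triangle_right _ _ _
        _ < ε := by linarith
    rwa [Y.2.closure_eq] at this
  intro X Y h
  apply Subtype.ext
  apply SetLike.coe_injective
  exact Subset.antisymm (key X Y h) (key Y X h.symm)

/-- The topology on the closed subspaces induced by the coding. -/
noncomputable instance topCS : TopologicalSpace (CS 𝕂 E) :=
  TopologicalSpace.induced code inferInstance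

lemma isOpen_imp (a a' : ℕ × ℕ) (B : Set (ℕ × ℕ)) :
    IsOpen {x : ℕ × ℕ → Bool | x a = true → x a' = true → ∃ b ∈ B, x b = true} := by
  have h : {x : ℕ × ℕ → Bool | x a = true → x a' = true → ∃ b ∈ B, x b = true} =
      (fun x => x a) ⁻¹' {false} ∪ (fun x => x a') ⁻¹' {false} ∪
        ⋃ b ∈ B, (fun x : ℕ × ℕ → Bool => x b) ⁻¹' {true} := by
    ext x
    simp only [mem_union, mem_preimage, mem_singleton_iff, mem_iUnion, exists_prop]
    change (x a = true → x a' = true → ∃ b ∈ B, x b = true) ↔ _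
    cases hxa : x a <;> cases hxa' : x a' <;> simp
  rw [h]
  have hev : ∀ (b : ℕ × ℕ) (s : Set Bool), IsOpen ((fun x : ℕ × ℕ → Bool => x b) ⁻¹' s) :=
    fun b s => (isOpen_discrete s).preimage (continuous_apply b)
  exact ((hev _ _).union (hev _ _)).union (isOpen_biUnion fun b _ => hev _ _)

variable (𝕂) in
/-- A dense sequence of scalars. -/
noncomputable def sc (n : ℕ) : 𝕂 := denseSeq 𝕂 n

variable (𝕂 E) in
/-- The conditions on a code. -/
def good : Set (ℕ × ℕ → Bool) :=
  (⋂ a : ℕ × ℕ, ⋂ _ : (0 : E) ∈ bl E a, {x | x a = true}) ∩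
  (⋂ p : (ℕ × ℕ) × (ℕ × ℕ), {x | x p.1 = true → x p.1 = true →
    ∃ b ∈ {b | bl E p.1 ⊆ bl E p.2 → b = p.2}, x b = true}) ∩
  (⋂ p : (ℕ × ℕ) × ℕ, {x | x p.1 = true → x p.1 = true →
    ∃ b ∈ {b : ℕ × ℕ | Metric.closedBall (den E b.1) (rad b.2) ⊆ bl E p.1 ∧ rad b.2 < rad p.2},
      x b = true}) ∩
  (⋂ p : (ℕ × ℕ) × (ℕ × ℕ), {x | x p.1 = true → x p.2 = true →
    ∃ b ∈ {b : ℕ × ℕ | bl E b ⊆ Metric.ball (den E p.1.1 + den E p.2.1) (rad p.1.2 + rad p.2.2)},
      x b = true}) ∩
  (⋂ p : (ℕ × ℕ) × ℕ, {x | x p.1 = true → x p.1 = true →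
    ∃ b ∈ {b : ℕ × ℕ | bl E b ⊆
      Metric.ball (sc 𝕂 p.2 • den E p.1.1) ((‖sc 𝕂 p.2‖ + 1) * rad p.1.2)}, x b = true})

lemma good_isGδ : IsGδ (good 𝕂 E) := by
  unfold good
  refine (((IsGδ.inter ?_ ?_).inter ?_).inter ?_).inter ?_
  · apply IsGδ.iInter
    intro a
    apply IsGδ.iInter
    intro _
    have h : IsOpen ((fun x : ℕ × ℕ → Bool => x a) ⁻¹' {true}) :=
      (isOpen_discrete ({true} : Set Bool)).preimage (continuous_apply a)
    exact h.isGδ
  · exact IsGδ.iInter fun p => (isOpen_imp _ _ _).isGδ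
  · exact IsGδ.iInter fun p => (isOpen_imp _ _ _).isGδ
  · exact IsGδ.iInter fun p => (isOpen_imp _ _ _).isGδ
  · exact IsGδ.iInter fun p => (isOpen_imp _ _ _).isGδ

lemma bl_subset_closedBall (a : ℕ × ℕ) : bl E a ⊆ Metric.closedBall (den E a.1) (rad a.2) :=
  Metric.ball_subset_closedBall

lemma code_good (X : CS 𝕂 E) : code X ∈ good 𝕂 E := by
  refine ⟨⟨⟨⟨?_, ?_⟩, ?_⟩, ?_⟩, ?_⟩
  · simp only [mem_iInter]
    intro a ha
    exact (code_iff X a).2 ⟨0, X.1.zero_mem, ha⟩
  · simp only [mem_iInter]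
    intro p hp _
    by_cases h : bl E p.1 ⊆ bl E p.2
    · refine ⟨p.2, fun _ => rfl, ?_⟩
      obtain ⟨f, hf, hf'⟩ := (code_iff X _).1 hp
      exact (code_iff X _).2 ⟨f, hf, h hf'⟩
    · exact ⟨p.1, fun h' => absurd h' h, hp⟩
  · simp only [mem_iInter]
    intro p hp _
    obtain ⟨f, hf, hf'⟩ := (code_iff X _).1 hp
    obtain ⟨b, hb1, hb2, hb3⟩ := exists_bl (bl_open p.1) hf' (rad_pos p.2)
    exact ⟨b, ⟨hb2, hb3⟩, (code_iff X b).2 ⟨f, hf, hb1⟩⟩
  · simp only [mem_iInter]
    intro p hp hp'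
    obtain ⟨f, hf, hf'⟩ := (code_iff X _).1 hp
    obtain ⟨g, hg, hg'⟩ := (code_iff X _).1 hp'
    have hfg : f + g ∈ Metric.ball (den E p.1.1 + den E p.2.1) (rad p.1.2 + rad p.2.2) := by
      rw [bl, Metric.mem_ball] at hf' hg'
      rw [Metric.mem_ball]
      calc dist (f + g) (den E p.1.1 + den E p.2.1) ≤ dist f (den E p.1.1) + dist g (den E p.2.1) :=
            dist_add_add_le _ _ _ _
        _ < _ := add_lt_add hf' hg'
    obtain ⟨b, hb1, hb2, hb3⟩ := exists_bl Metric.isOpen_ball hfg zero_lt_one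
    exact ⟨b, (bl_subset_closedBall b).trans hb2,
      (code_iff X b).2 ⟨f + g, X.1.add_mem hf hg, hb1⟩⟩
  · simp only [mem_iInter]
    intro p hp _
    obtain ⟨f, hf, hf'⟩ := (code_iff X _).1 hp
    have hcf : sc 𝕂 p.2 • f ∈
        Metric.ball (sc 𝕂 p.2 • den E p.1.1) ((‖sc 𝕂 p.2‖ + 1) * rad p.1.2) := by
      rw [bl, Metric.mem_ball, dist_eq_norm] at hf'
      rw [Metric.mem_ball, dist_eq_norm, ← smul_sub, norm_smul]
      have h1 := norm_nonneg (sc 𝕂 p.2)
      have h2 := rad_pos p.1.2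
      nlinarith
    obtain ⟨b, hb1, hb2, hb3⟩ := exists_bl Metric.isOpen_ball hcf zero_lt_one
    exact ⟨b, (bl_subset_closedBall b).trans hb2,
      (code_iff X b).2 ⟨_, X.1.smul_mem _ hf, hb1⟩⟩

/-- The set coded by `x`. -/
def dec (x : ℕ × ℕ → Bool) : Set E := {f | ∀ a, f ∈ bl E a → x a = true}

lemma dec_closed (x : ℕ × ℕ → Bool) : IsClosed (dec x : Set E) := by
  have : (dec x : Set E) = (⋃ a ∈ {a | x a = false}, bl E a)ᶜ := by
    ext f
    simp only [mem_compl_iff, mem_iUnion, not_exists]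
    constructor
    · intro h a ha hf
      have h1 := h a hf
      have h2 : x a = false := ha
      rw [h2] at h1
      exact absurd h1 (by simp)
    · intro h a hf
      by_contra hx
      exact h a (by simpa using hx) hf
  rw [this]
  exact (isOpen_biUnion fun a _ => bl_open a).isClosed_compl

lemma good_mono {x : ℕ × ℕ → Bool} (hx : x ∈ good 𝕂 E) {a b : ℕ × ℕ} (ha : x a = true)
    (hab : bl E a ⊆ bl E b) : x b = true := by
  have h := hx.1.1.1.2
  simp only [mem_iInter] at h
  obtain ⟨c, hc, hxc⟩ := h (a, b) ha ha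
  have : c = b := hc hab
  rwa [this] at hxc

lemma dec_meets {x : ℕ × ℕ → Bool} (hx : x ∈ good 𝕂 E) {a : ℕ × ℕ} (ha : x a = true) :
    ((dec x : Set E) ∩ bl E a).Nonempty := by
  have h := hx.1.1.2
  simp only [mem_iInter] at h
  have hstep : ∀ (b : {b : ℕ × ℕ // x b = true}) (m : ℕ), ∃ c : {b : ℕ × ℕ // x b = true},
      Metric.closedBall (den E c.1.1) (rad c.1.2) ⊆ bl E b.1 ∧ rad c.1.2 < rad m := by
    intro b m
    obtain ⟨c, hc, hxc⟩ := h (b.1, m) b.2 b.2
    exact ⟨⟨c, hxc⟩, hc⟩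
  choose nx hnx1 hnx2 using hstep
  let sq : ℕ → {b : ℕ × ℕ // x b = true} := fun n => Nat.rec ⟨a, ha⟩ (fun m b => nx b m) n
  have hs : ∀ n, sq (n + 1) = nx (sq n) n := fun n => rfl
  have hnest : ∀ n, Metric.closedBall (den E (sq (n + 1)).1.1) (rad (sq (n + 1)).1.2) ⊆
      bl E (sq n).1 := fun n => by rw [hs]; exact hnx1 _ _
  have hrad : ∀ n, rad (sq (n + 1)).1.2 < rad n := fun n => by rw [hs]; exact hnx2 _ _
  have hmono : ∀ m n, m ≤ n → bl E (sq n).1 ⊆ bl E (sq m).1 := by
    intro m n hmn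
    induction n, hmn using Nat.le_induction with
    | base => exact Subset.rfl
    | succ n _ ih => exact ((bl_subset_closedBall _).trans (hnest n)).trans ih
  have hcen : ∀ n, den E (sq n).1.1 ∈ bl E (sq n).1 := fun n =>
    Metric.mem_ball_self (rad_pos _)
  have hdist : ∀ n m, n + 1 ≤ m → dist (den E (sq m).1.1) (den E (sq (n + 1)).1.1) < rad n := by
    intro n m hm
    have h1 := hmono (n + 1) m hm (hcen m)
    rw [bl, Metric.mem_ball] at h1
    exact h1.trans (hrad n)
  have hcau : CauchySeq (fun n => den E (sq n).1.1) := by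
    rw [Metric.cauchySeq_iff']
    intro ε hε
    obtain ⟨j, hj⟩ := exists_rad_lt hε
    exact ⟨j + 1, fun n hn => (hdist j n hn).trans hj⟩
  obtain ⟨f, hf⟩ := cauchySeq_tendsto_of_complete hcau
  have hfin : ∀ n, f ∈ bl E (sq n).1 := by
    intro n
    apply hnest n
    apply Metric.isClosed_closedBall.mem_of_tendsto hf
    filter_upwards [eventually_ge_atTop (n + 1)] with m hm
    exact bl_subset_closedBall _ (hmono (n + 1) m hm (hcen m))
  refine ⟨f, ?_, hfin 0⟩
  intro b hb
  obtain ⟨δ, hδ, hδb⟩ := Metric.isOpen_iff.1 (bl_open b) f hb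
  obtain ⟨j, hj⟩ := exists_rad_lt (half_pos hδ)
  refine good_mono hx (sq (j + 1)).2 ?_
  intro y hy
  apply hδb
  have h1 := hfin (j + 1)
  rw [bl, Metric.mem_ball] at h1 hy
  rw [Metric.mem_ball]
  have h2 := hrad j
  calc dist y f ≤ dist y (den E (sq (j + 1)).1.1) + dist f (den E (sq (j + 1)).1.1) :=
        dist_triangle_right _ _ _
    _ < δ := by linarith

lemma range_code : range (code (𝕂 := 𝕂) (E := E)) = good 𝕂 E := by
  apply Subset.antisymm
  · rintro _ ⟨X, rfl⟩
    exact code_good X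
  · intro x hx
    have hzero : (0 : E) ∈ dec x := by
      intro a ha
      have h := hx.1.1.1.1
      simp only [mem_iInter] at h
      exact h a ha
    have hadd : ∀ f g : E, f ∈ dec x → g ∈ dec x → f + g ∈ dec x := by
      intro f g hf hg a ha
      obtain ⟨δ, hδ, hδa⟩ := Metric.isOpen_iff.1 (bl_open a) _ ha
      obtain ⟨b, hb1, _, hb3⟩ := exists_bl isOpen_univ (mem_univ f) (by positivity : 0 < δ / 4)
      obtain ⟨c, hc1, _, hc3⟩ := exists_bl isOpen_univ (mem_univ g) (by positivity : 0 < δ / 4)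
      have h := hx.1.2
      simp only [mem_iInter] at h
      obtain ⟨d, hd, hxd⟩ := h (b, c) (hf b hb1) (hg c hc1)
      refine good_mono hx hxd (hd.trans ?_)
      intro y hy
      apply hδa
      rw [Metric.mem_ball] at hy ⊢
      rw [bl, Metric.mem_ball] at hb1 hc1
      have h1 : dist (f + g) (den E b.1 + den E c.1) ≤ dist f (den E b.1) + dist g (den E c.1) :=
        dist_add_add_le _ _ _ _
      have h2 := dist_triangle_right y (f + g) (den E b.1 + den E c.1)
      simp only at hy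
      linarith
    have hsc : ∀ (n : ℕ) (f : E), f ∈ dec x → sc 𝕂 n • f ∈ dec x := by
      intro n f hf a ha
      obtain ⟨δ, hδ, hδa⟩ := Metric.isOpen_iff.1 (bl_open a) _ ha
      have hM : 0 < 2 * ‖sc 𝕂 n‖ + 2 := by positivity
      obtain ⟨b, hb1, _, hb3⟩ := exists_bl isOpen_univ (mem_univ f)
        (by positivity : 0 < δ / (2 * ‖sc 𝕂 n‖ + 2))
      have h := hx.2
      simp only [mem_iInter] at h
      obtain ⟨d, hd, hxd⟩ := h (b, n) (hf b hb1) (hf b hb1)
      refine good_mono hx hxd (hd.trans ?_)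
      intro y hy
      apply hδa
      rw [lt_div_iff₀ hM] at hb3
      simp only [Metric.mem_ball] at hy ⊢
      rw [bl, Metric.mem_ball, dist_eq_norm] at hb1
      have h1 : dist (sc 𝕂 n • f) (sc 𝕂 n • den E b.1) ≤ ‖sc 𝕂 n‖ * rad b.2 := by
        rw [dist_eq_norm, ← smul_sub, norm_smul]
        exact mul_le_mul_of_nonneg_left hb1.le (norm_nonneg _)
      have h2 := dist_triangle_right y (sc 𝕂 n • f) (sc 𝕂 n • den E b.1)
      have h3 := rad_pos b.2
      nlinarith
    have hsmul : ∀ (c : 𝕂) (f : E), f ∈ dec x → c • f ∈ dec x := by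
      intro c f hf
      have hcl : IsClosed {c : 𝕂 | c • f ∈ dec x} :=
        (dec_closed x).preimage (continuous_id.smul continuous_const)
      have hsub : range (denseSeq 𝕂) ⊆ {c : 𝕂 | c • f ∈ dec x} := by
        rintro _ ⟨n, rfl⟩
        exact hsc n f hf
      have := closure_minimal hsub hcl
      rw [(denseRange_denseSeq 𝕂).closure_range] at this
      exact this (mem_univ c)
    refine ⟨⟨{ carrier := dec x
               add_mem' := fun {f g} hf hg => hadd f g hf hg
               zero_mem' := hzero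
               smul_mem' := fun c f hf => hsmul c f hf }, dec_closed x⟩, ?_⟩
    funext a
    rw [Bool.eq_iff_iff, code_iff]
    constructor
    · rintro ⟨f, hf, hfa⟩
      exact hf a hfa
    · intro ha
      exact dec_meets hx ha

lemma polish_CS : PolishSpace (CS 𝕂 E) := by
  have i1 : SeparableSpace (ℕ × ℕ → Bool) := inferInstance
  have i2 : IsCompletelyMetrizableSpace (ℕ × ℕ → Bool) := inferInstance
  have i3 : PolishSpace (ℕ × ℕ → Bool) := inferInstance
  have h1 : PolishSpace (range (code (𝕂 := 𝕂) (E := E))) := by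
    rw [range_code]
    exact polish_of_isGδ good_isGδ
  have h2 : IsEmbedding (code (𝕂 := 𝕂) (E := E)) := ⟨⟨rfl⟩, code_injective⟩
  have h3 := h2.toHomeomorph
  exact h3.isClosedEmbedding.polishSpace

/-! ### Basic properties of the topology -/

lemma isClopen_code (a : ℕ × ℕ) (b : Bool) : IsClopen {X : CS 𝕂 E | code X a = b} := by
  have hc0 : Continuous (code : CS 𝕂 E → ℕ × ℕ → Bool) := continuous_induced_dom
  have hc : Continuous (fun X : CS 𝕂 E => code X a) := (continuous_apply a).comp hc0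
  exact (isClopen_discrete ({b} : Set Bool)).preimage hc

/-- The closed subspaces which meet `U`. -/
def ep (U : Set E) : Set (CS 𝕂 E) := {X | ((X.1 : Set E) ∩ U).Nonempty}

lemma ep_bl (a : ℕ × ℕ) : (ep (bl E a) : Set (CS 𝕂 E)) = {X | code X a = true} := by
  ext X
  exact (code_iff X a).symm

lemma ep_open {U : Set E} (hU : IsOpen U) : IsOpen (ep U : Set (CS 𝕂 E)) := by
  have : (ep U : Set (CS 𝕂 E)) = ⋃ a ∈ {a | bl E a ⊆ U}, ep (bl E a) := by
    ext X
    simp only [mem_iUnion, exists_prop]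
    constructor
    · rintro ⟨f, hf, hfU⟩
      obtain ⟨a, ha1, ha2, _⟩ := exists_bl hU hfU zero_lt_one
      exact ⟨a, (bl_subset_closedBall a).trans ha2, f, hf, ha1⟩
    · rintro ⟨a, ha, f, hf, hfa⟩
      exact ⟨f, hf, ha hfa⟩
  rw [this]
  refine isOpen_biUnion fun a _ => ?_
  rw [ep_bl]
  exact (isClopen_code a true).isOpen

/-- The subbasis. -/
def subb : Set (Set (CS 𝕂 E)) :=
  range (fun a : ℕ × ℕ => ep (bl E a)) ∪ range (fun a : ℕ × ℕ => ep univ \ ep (bl E a))

lemma topCS_eq : (topCS : TopologicalSpace (CS 𝕂 E)) = TopologicalSpace.generateFrom subb := by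
  apply le_antisymm
  · apply le_generateFrom
    rintro s (⟨a, rfl⟩ | ⟨a, rfl⟩)
    · exact ep_open (bl_open a)
    · exact (ep_open isOpen_univ).sdiff (by rw [ep_bl]; exact (isClopen_code a true).isClosed)
  · rw [topCS, ← continuous_iff_le_induced]
    have hkey : ∀ a : ℕ × ℕ, Continuous[TopologicalSpace.generateFrom subb, inferInstance]
        (fun X : CS 𝕂 E => code X a) := by
      intro a
      let _ : TopologicalSpace (CS 𝕂 E) := TopologicalSpace.generateFrom subb
      rw [continuous_discrete_rng]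
      intro b
      cases b
      · apply TopologicalSpace.isOpen_generateFrom_of_mem
        right
        refine ⟨a, ?_⟩
        ext X
        simp only [Set.mem_sdiff, mem_preimage, mem_singleton_iff]
        rw [ep_bl]
        constructor
        · rintro ⟨_, h⟩
          simpa using h
        · intro h
          refine ⟨⟨0, X.1.zero_mem, mem_univ _⟩, ?_⟩
          simpa using h
      · apply TopologicalSpace.isOpen_generateFrom_of_mem
        left
        refine ⟨a, ?_⟩
        exact ep_bl a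
    let _ : TopologicalSpace (CS 𝕂 E) := TopologicalSpace.generateFrom subb
    exact continuous_pi hkey

lemma propZ_pi : PropZ (ℕ × ℕ → Bool) := by
  intro O hO
  have hb : IsTopologicalBasis {s : Set (ℕ × ℕ → Bool) | IsClopen s} := isTopologicalBasis_isClopen
  obtain ⟨S0, hS0, hS0'⟩ := hb.open_eq_sUnion hO
  obtain ⟨T, hT, hTS, hTU⟩ := isOpen_sUnion_countable S0 (fun s hs => (hS0 hs).isOpen)
  have hne : (T ∪ {∅}).Nonempty := ⟨∅, Or.inr rfl⟩
  obtain ⟨C, hC⟩ := (hT.union (countable_singleton ∅)).exists_eq_range hne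
  refine ⟨C, ?_, ?_⟩
  · intro n
    have : C n ∈ T ∪ {∅} := by rw [hC]; exact mem_range_self n
    rcases this with h | h
    · exact hS0 (hTS h)
    · rw [mem_singleton_iff] at h
      rw [h]
      exact isClopen_empty
  · rw [hS0', ← hTU, ← sUnion_range, ← hC, sUnion_union]
    simp

lemma propZ_CS : PropZ (CS 𝕂 E) := by
  intro O hO
  obtain ⟨O', hO', rfl⟩ := isOpen_induced_iff.1 hO
  obtain ⟨C, hC, rfl⟩ := propZ_pi O' hO'
  refine ⟨fun n => code ⁻¹' (C n), fun n => (hC n).preimage continuous_induced_dom, ?_⟩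
  rw [preimage_iUnion]

/-- Continuous selection through a locally constant choice of basic balls. -/
lemma exists_sel (s₀ : CS 𝕂 E → ℕ × ℕ) (hs₀ : Continuous s₀) (h₀ : ∀ X, code X (s₀ X) = true) :
    ∃ g : CS 𝕂 E → E, Continuous g ∧ ∀ X, g X ∈ X.1 ∧ g X ∈ bl E (s₀ X) := by
  classical
  have hstep : ∀ (s : {s : CS 𝕂 E → ℕ × ℕ // Continuous s ∧ ∀ X, code X (s X) = true}) (m : ℕ),
      ∃ s' : {s : CS 𝕂 E → ℕ × ℕ // Continuous s ∧ ∀ X, code X (s X) = true},
        ∀ X, Metric.closedBall (den E (s'.1 X).1) (rad (s'.1 X).2) ⊆ bl E (s.1 X) ∧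
          rad (s'.1 X).2 < rad m := by
    intro s m
    obtain ⟨α, hα, hα'⟩ := cont_find (fun (X : CS 𝕂 E) (b : ℕ × ℕ) =>
      (Metric.closedBall (den E b.1) (rad b.2) ⊆ bl E (s.1 X) ∧ rad b.2 < rad m) ∧
        code X b = true) (by
          intro b
          have h1 : IsClopen {X : CS 𝕂 E |
              (Metric.closedBall (den E b.1) (rad b.2) ⊆ bl E (s.1 X) ∧ rad b.2 < rad m)} :=
            (isClopen_discrete {c : ℕ × ℕ | (Metric.closedBall (den E b.1) (rad b.2) ⊆ bl E c ∧
              rad b.2 < rad m)}).preimage s.2.1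
          exact h1.inter (isClopen_code b true)) (by
          intro X
          obtain ⟨f, hf, hf'⟩ := (code_iff X _).1 (s.2.2 X)
          obtain ⟨b, hb1, hb2, hb3⟩ := exists_bl (bl_open (s.1 X)) hf' (rad_pos m)
          exact ⟨b, ⟨hb2, hb3⟩, (code_iff X b).2 ⟨f, hf, hb1⟩⟩)
    exact ⟨⟨α, hα, fun X => (hα' X).2⟩, fun X => (hα' X).1⟩
  choose nx hnx using hstep
  let sq : ℕ → {s : CS 𝕂 E → ℕ × ℕ // Continuous s ∧ ∀ X, code X (s X) = true} :=
    fun n => Nat.rec ⟨s₀, hs₀, h₀⟩ (fun m b => nx b m) n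
  have hs : ∀ n, sq (n + 1) = nx (sq n) n := fun n => rfl
  have hnest : ∀ n X, Metric.closedBall (den E ((sq (n + 1)).1 X).1) (rad ((sq (n + 1)).1 X).2) ⊆
      bl E ((sq n).1 X) := fun n X => by rw [hs]; exact (hnx _ _ X).1
  have hrad : ∀ n X, rad ((sq (n + 1)).1 X).2 < rad n := fun n X => by
    rw [hs]; exact (hnx _ _ X).2
  have hmono : ∀ X m n, m ≤ n → bl E ((sq n).1 X) ⊆ bl E ((sq m).1 X) := by
    intro X m n hmn
    induction n, hmn using Nat.le_induction with
    | base => exact Subset.rfl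
    | succ n _ ih => exact ((bl_subset_closedBall _).trans (hnest n X)).trans ih
  have hcen : ∀ n X, den E ((sq n).1 X).1 ∈ bl E ((sq n).1 X) := fun n X =>
    Metric.mem_ball_self (rad_pos _)
  have hdist : ∀ X n m, n + 1 ≤ m →
      dist (den E ((sq m).1 X).1) (den E ((sq (n + 1)).1 X).1) < rad n := by
    intro X n m hm
    have h1 := hmono X (n + 1) m hm (hcen m X)
    rw [bl, Metric.mem_ball] at h1
    exact h1.trans (hrad n X)
  have hlim : ∀ X, ∃ f, Tendsto (fun n => den E ((sq n).1 X).1) atTop (𝓝 f) := by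
    intro X
    apply cauchySeq_tendsto_of_complete
    rw [Metric.cauchySeq_iff']
    intro ε hε
    obtain ⟨j, hj⟩ := exists_rad_lt hε
    exact ⟨j + 1, fun n hn => (hdist X j n hn).trans hj⟩
  choose g hg using hlim
  have hfin : ∀ n X, g X ∈ bl E ((sq n).1 X) := by
    intro n X
    apply hnest n X
    apply Metric.isClosed_closedBall.mem_of_tendsto (hg X)
    filter_upwards [eventually_ge_atTop (n + 1)] with m hm
    exact bl_subset_closedBall _ (hmono X (n + 1) m hm (hcen m X))
  refine ⟨g, ?_, ?_⟩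
  · have hunif : TendstoUniformly (fun n (X : CS 𝕂 E) => den E ((sq n).1 X).1) g atTop := by
      rw [Metric.tendstoUniformly_iff]
      intro ε hε
      obtain ⟨j, hj⟩ := exists_rad_lt hε
      filter_upwards [eventually_ge_atTop (j + 1)] with n hn X
      obtain ⟨m, rfl⟩ : ∃ m, n = m + 1 := ⟨n - 1, by omega⟩
      have h1 := hfin (m + 1) X
      rw [bl, Metric.mem_ball] at h1
      have h2 : rad m ≤ rad j := by
        unfold rad
        apply one_div_le_one_div_of_le (by positivity)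
        have : (j : ℝ) ≤ m := by exact_mod_cast (by omega : j ≤ m)
        linarith
      exact ((h1.trans (hrad m X)).trans_le h2).trans hj
    apply hunif.continuous
    apply Frequently.of_forall
    intro n
    exact (continuous_of_discreteTopology (f := fun b : ℕ × ℕ => den E b.1)).comp (sq n).2.1
  · intro X
    refine ⟨?_, hfin 0 X⟩
    have : g X ∈ closure (X.1 : Set E) := by
      rw [Metric.mem_closure_iff]
      intro ε hε
      obtain ⟨j, hj⟩ := exists_rad_lt (half_pos hε)
      obtain ⟨y, hy, hy'⟩ := (code_iff X _).1 ((sq (j + 1)).2.2 X)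
      refine ⟨y, hy, ?_⟩
      have h1 := hfin (j + 1) X
      rw [bl, Metric.mem_ball] at h1 hy'
      have h2 := hrad j X
      calc dist (g X) y ≤ dist (g X) (den E ((sq (j + 1)).1 X).1) +
            dist y (den E ((sq (j + 1)).1 X).1) := dist_triangle_right _ _ _
        _ < ε := by linarith
    rwa [X.2.closure_eq] at this

/-- Continuous dense selections. -/
lemma exists_dense_sel : ∃ g : ℕ → CS 𝕂 E → E, (∀ j, Continuous (g j)) ∧
    ∀ X, closure (range fun j => g j X) = X.1 := by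
  classical
  obtain ⟨a₀, ha₀, _, _⟩ := exists_bl isOpen_univ (mem_univ (0 : E)) one_pos
  have hsel : ∀ a : ℕ × ℕ, ∃ g : CS 𝕂 E → E, Continuous g ∧
      ∀ X, g X ∈ X.1 ∧ (code X a = true → g X ∈ bl E a) := by
    intro a
    have hc : Continuous (fun X : CS 𝕂 E => if code X a = true then a else a₀) := by
      have hc0 : Continuous (code : CS 𝕂 E → ℕ × ℕ → Bool) := continuous_induced_dom
      have hc1 : Continuous (fun X : CS 𝕂 E => code X a) := (continuous_apply a).comp hc0
      exact (continuous_of_discreteTopology (f := fun b : Bool => if b = true then a else a₀)).comp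
        hc1
    obtain ⟨g, hg, hg'⟩ := exists_sel (fun X : CS 𝕂 E => if code X a = true then a else a₀) hc (by
      intro X
      by_cases h : code X a = true
      · rw [if_pos h]; exact h
      · rw [if_neg h]; exact (code_iff X a₀).2 ⟨0, X.1.zero_mem, ha₀⟩)
    refine ⟨g, hg, fun X => ⟨(hg' X).1, fun h => ?_⟩⟩
    have := (hg' X).2
    rwa [if_pos h] at this
  choose g hg hg' using hsel
  refine ⟨fun j => g (Nat.unpair j), fun j => hg _, ?_⟩
  intro X
  apply Subset.antisymm
  · apply closure_minimal _ X.2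
    rintro _ ⟨j, rfl⟩
    exact (hg' _ X).1
  · intro x hx
    rw [Metric.mem_closure_iff]
    intro ε hε
    obtain ⟨a, ha1, ha2, ha3⟩ := exists_bl isOpen_univ (mem_univ x) (half_pos hε)
    refine ⟨_, ⟨Nat.pair a.1 a.2, rfl⟩, ?_⟩
    simp only [Nat.unpair_pair]
    have h1 := (hg' a X).2 ((code_iff X a).2 ⟨x, hx, ha1⟩)
    rw [bl, Metric.mem_ball] at h1 ha1
    calc dist x (g a X) ≤ dist x (den E a.1) + dist (g a X) (den E a.1) :=
          dist_triangle_right _ _ _
      _ < ε := by linarith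

end coding

/-- There is an admissible Polish topology `τ` on the set `SB` of closed linear subspaces of `C(Δ)`
and a sequence of `τ`-continuous maps `h i : SB → C(Δ)` such that `(h i X)_i` is dense in `X` for
every `X` and linearly independent for every infinite-dimensional `X`. -/
theorem result (𝕂 : Type) [RCLike 𝕂] : ∃ τ : TopologicalSpace (SB 𝕂), IsAdmissible τ ∧
    ∃ h : ℕ → SB 𝕂 → CDelta 𝕂,
      (∀ i, Continuous[τ, inferInstance] (h i)) ∧
      (∀ X : SB 𝕂, (X.1 : Set (CDelta 𝕂)) = closure (range fun i => h i X)) ∧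
      ∀ X : SB 𝕂, ¬ FiniteDimensional 𝕂 X.1 → LinearIndependent 𝕂 (fun i => h i X) := by
  have hsep : SeparableSpace (CDelta 𝕂) := inferInstance
  refine ⟨(topCS : TopologicalSpace (CS 𝕂 (CDelta 𝕂))), ⟨polish_CS, ?_, subb, topCS_eq, ?_⟩, ?_⟩
  · intro U hU
    exact ep_open hU
  · rintro s (⟨a, rfl⟩ | ⟨a, rfl⟩)
    · refine ⟨fun _ => bl _ a, fun _ => ∅, fun _ => bl_open a, fun _ => isOpen_empty, ?_⟩
      rw [iUnion_const]
      ext X
      constructor
      · intro h
        exact ⟨h, fun h' => by obtain ⟨y, _, hy⟩ := h'; exact hy⟩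
      · intro h
        exact h.1
    · refine ⟨fun _ => univ, fun _ => bl _ a, fun _ => isOpen_univ, fun _ => bl_open a, ?_⟩
      rw [iUnion_const]
      rfl
  · obtain ⟨g, hg, hg'⟩ := exists_dense_sel (𝕂 := 𝕂) (E := CDelta 𝕂)
    obtain ⟨h, hh1, hh2, hh3⟩ := dense_indep (𝕂 := 𝕂) (S := CS 𝕂 (CDelta 𝕂)) propZ_CS
      (fun X => X.1) (fun X => X.2) g hg hg'
    exact ⟨h, hh1, fun X => (hh2 X).symm, hh3⟩

end Pool.Agent.Results.MP_89350a_an.ContinuousChoice
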